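import Pool.Agent.helper69.AD.GS1

/-! # MP_a29257_gt, module ag:BD9: nested leaves and positive matrices -/

open scoped MatrixGroups LinearAlgebra.Projectivization
open Matrix UpperHalfPlane

namespace AdSBend

theorem BD9_sign {a b c d : ℝ} (h : a * d - b * c = 1) :
    (0 < a * c ∧ 0 < a * b) ↔
      ((0 < a ∧ 0 < b ∧ 0 < c ∧ 0 < d) ∨ (a < 0 ∧ b < 0 ∧ c < 0 ∧ d < 0)) := by
  constructor
  · rintro ⟨h1, h2⟩
    rcases lt_trichotomy a 0 with ha | ha | ha
    · right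
      have hc : c < 0 := by nlinarith
      have hb : b < 0 := by nlinarith
      have hbc : 0 < b * c := mul_pos_of_neg_of_neg hb hc
      refine ⟨ha, hb, hc, ?_⟩
      by_contra hd
      push Not at hd
      nlinarith [mul_nonneg (show (0 : ℝ) ≤ -a by linarith) hd]
    · rw [ha] at h1
      simp at h1
    · left
      have hc : 0 < c := by
        by_contra hcon
        push Not at hcon
        nlinarith [mul_nonneg ha.le (show (0 : ℝ) ≤ -c by linarith)]
      have hb : 0 < b := by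
        by_contra hcon
        push Not at hcon
        nlinarith [mul_nonneg ha.le (show (0 : ℝ) ≤ -b by linarith)]
      have hbc : 0 < b * c := mul_pos hb hc
      refine ⟨ha, hb, hc, ?_⟩
      by_contra hd
      push Not at hd
      nlinarith [mul_nonneg ha.le (show (0 : ℝ) ≤ -d by linarith)]
  · rintro (⟨h1, h2, h3, h4⟩ | ⟨h1, h2, h3, h4⟩)
    · exact ⟨mul_pos h1 h3, mul_pos h1 h2⟩
    · exact ⟨mul_pos_of_neg_of_neg h1 h3, mul_pos_of_neg_of_neg h1 h2⟩

theorem BD9 (h1 : BD1_stmt) (h2 : BD2_stmt) : BD9_stmt := by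
  intro F F' p q hF hF'
  set G : SL(2, ℝ) := F⁻¹ * F' with hG
  have hp1 : F⁻¹ • p.1 = bInf := by rw [← hF.1, inv_smul_smul]
  have hp2 : F⁻¹ • p.2 = bZero := by rw [← hF.2, inv_smul_smul]
  have hq1 : F⁻¹ • q.1 = G • bInf := by rw [← hF'.1, hG, mul_smul]
  have hq2 : F⁻¹ • q.2 = G • bZero := by rw [← hF'.2, hG, mul_smul]
  have hdet : G.1 0 0 * G.1 1 1 - G.1 0 1 * G.1 1 0 = 1 := by
    have := G.2
    rw [Matrix.det_fin_two] at this
    exact this
  have e1 : G • bInf = Projectivization.mk ℝ (G • (![1, 0] : Fin 2 → ℝ))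
      ((smul_ne_zero_iff_ne G).mpr (by intro h; simpa using congrFun h 0)) :=
    Projectivization.smul_mk G _
  have e2 : G • bZero = Projectivization.mk ℝ (G • (![0, 1] : Fin 2 → ℝ))
      ((smul_ne_zero_iff_ne G).mpr (by intro h; simpa using congrFun h 1)) :=
    Projectivization.smul_mk G _
  have v1 : (G • (![1, 0] : Fin 2 → ℝ)) 0 = G.1 0 0 ∧ (G • (![1, 0] : Fin 2 → ℝ)) 1 = G.1 1 0 := by
    constructor
    · show (G.1 *ᵥ ![1, 0]) 0 = _
      simp [Matrix.mulVec, dotProduct, Fin.sum_univ_two]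
    · show (G.1 *ᵥ ![1, 0]) 1 = _
      simp [Matrix.mulVec, dotProduct, Fin.sum_univ_two]
  have v2 : (G • (![0, 1] : Fin 2 → ℝ)) 0 = G.1 0 1 ∧ (G • (![0, 1] : Fin 2 → ℝ)) 1 = G.1 1 1 := by
    constructor
    · show (G.1 *ᵥ ![0, 1]) 0 = _
      simp [Matrix.mulVec, dotProduct, Fin.sum_univ_two]
    · show (G.1 *ᵥ ![0, 1]) 1 = _
      simp [Matrix.mulVec, dotProduct, Fin.sum_univ_two]
  have c1 : Cyc q.1 p.1 p.2 ↔ 0 < G.1 0 0 * G.1 1 0 := by
    rw [← h2 F⁻¹ q.1 p.1 p.2, hp1, hp2, hq1, e1]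
    unfold bInf bZero
    rw [h1]
    simp only [dt, v1.1, v1.2]
    rw [mul_comm (G.1 0 0) (G.1 1 0)]
    simp
  have c2 : Cyc q.1 p.2 q.2 ↔ 0 < G.1 0 0 * G.1 0 1 := by
    rw [← h2 F⁻¹ q.1 p.2 q.2, hp2, hq1, hq2, e1, e2]
    unfold bZero
    rw [h1]
    simp only [dt, v1.1, v1.2, v2.1, v2.2]
    have : (G.1 0 0 * (![0, 1] : Fin 2 → ℝ) 1 - G.1 1 0 * (![0, 1] : Fin 2 → ℝ) 0) *
        ((![0, 1] : Fin 2 → ℝ) 0 * G.1 1 1 - (![0, 1] : Fin 2 → ℝ) 1 * G.1 0 1) *
        (G.1 0 1 * G.1 1 0 - G.1 1 1 * G.1 0 0) = G.1 0 0 * G.1 0 1 := by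
      have h3 : G.1 0 1 * G.1 1 0 - G.1 1 1 * G.1 0 0 = -1 := by linarith
      rw [h3]
      simp
    rw [this]
  unfold Inside
  rw [c1, c2, BD9_sign hdet]
  constructor
  · rintro (⟨a1, a2, a3, a4⟩ | ⟨a1, a2, a3, a4⟩)
    · left
      intro i j
      fin_cases i <;> fin_cases j
      · exact a1
      · exact a2
      · exact a3
      · exact a4
    · right
      intro i j
      have hn : ∀ i j, (-G).1 i j = -(G.1 i j) := by
        intro i j
        rfl
      rw [hn]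
      fin_cases i <;> fin_cases j
      · exact neg_pos.mpr a1
      · exact neg_pos.mpr a2
      · exact neg_pos.mpr a3
      · exact neg_pos.mpr a4
  · rintro (h | h)
    · left
      exact ⟨h 0 0, h 0 1, h 1 0, h 1 1⟩
    · right
      have hn : ∀ i j, (-G).1 i j = -(G.1 i j) := by
        intro i j
        rfl
      have b1 := h 0 0
      have b2 := h 0 1
      have b3 := h 1 0
      have b4 := h 1 1
      rw [hn] at b1 b2 b3 b4
      exact ⟨by linarith, by linarith, by linarith, by linarith⟩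

end AdSBend
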