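import Pool.Agent.helper69.AD.GS5

/-! # MP_a29257_gt, module ag:IJ2: an admissible representation is determined by its lengths and
twist parameters -/

open scoped MatrixGroups LinearAlgebra.Projectivization
open Matrix UpperHalfPlane

namespace AdSBend

open LeafSystem

theorem IJ2_rfl (a : SL(2, ℝ)) : PEq a a := Or.inl rfl

theorem IJ2_symm {a b : SL(2, ℝ)} (h : PEq a b) : PEq b a := by
  rcases h with h | h
  · exact Or.inl h.symm
  · right; rw [h, neg_neg]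

theorem IJ2_trans {a b c : SL(2, ℝ)} (h : PEq a b) (h' : PEq b c) : PEq a c := by
  rcases h with h | h <;> rcases h' with h' | h'
  · left; rw [h, h']
  · right; rw [h, h']
  · right; rw [h, h']
  · left; rw [h, h', neg_neg]

theorem IJ2_mul_left {a b : SL(2, ℝ)} (c : SL(2, ℝ)) (h : PEq a b) : PEq (c * a) (c * b) := by
  rcases h with h | h
  · left; rw [h]
  · right; rw [h, mul_neg]

theorem IJ2_mul_right {a b : SL(2, ℝ)} (c : SL(2, ℝ)) (h : PEq a b) : PEq (a * c) (b * c) := by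
  rcases h with h | h
  · left; rw [h]
  · right; rw [h, neg_mul]

theorem IJ2_cancel_right {a b : SL(2, ℝ)} (c : SL(2, ℝ)) (h : PEq (a * c) (b * c)) :
    PEq a b := by
  have := IJ2_mul_right c⁻¹ h
  rwa [mul_assoc, mul_assoc, mul_inv_cancel, mul_one, mul_one] at this

/-- the common transition matrix of the two systems of frames at the flag `(p, u)` -/
def IJ2_Good {Γ : Subgroup SL(2, ℝ)} (r r' : SL(2, ℝ) → SL(2, ℝ)) (D : SL(2, ℝ))
    (p u : Bd × Bd) : Prop :=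
  ∀ F F', IsSeamFrame (r (gen Γ p)) (r (gen Γ u)) F →
    IsSeamFrame (r' (gen Γ p)) (r' (gen Γ u)) F' → PEq F' (D * F)

/-- all flags at the leaf `p` are good -/
def IJ2_Leaf {Γ : Subgroup SL(2, ℝ)} (S : LeafSystem Γ) (r r' : SL(2, ℝ) → SL(2, ℝ))
    (D : SL(2, ℝ)) (p : Bd × Bd) : Prop :=
  p ∈ S.L ∧ ∀ u, S.Seam p u → IJ2_Good (Γ := Γ) r r' D p u

theorem IJ2_seam_mem {Γ : Subgroup SL(2, ℝ)} (S : LeafSystem Γ) {p u : Bd × Bd}
    (h : S.Seam p u) : p ∈ S.L ∧ u ∈ S.L := by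
  obtain ⟨x, h | h⟩ := h
  · exact ⟨h.1.1, h.1.2.1⟩
  · exact ⟨h.1.2.1, h.1.1⟩

theorem IJ2_seam_symm {Γ : Subgroup SL(2, ℝ)} (S : LeafSystem Γ) {p u : Bd × Bd}
    (h : S.Seam p u) : S.Seam u p := by
  obtain ⟨x, h⟩ := h
  exact ⟨x, h.symm⟩

/-- the inverse of a generator -/
theorem IJ2_rep_inv {Γ : Subgroup SL(2, ℝ)} {r : SL(2, ℝ) → SL(2, ℝ)} (hr : IsPRep Γ r)
    {g h : SL(2, ℝ)} (hg : g ∈ Γ) (hh : h ∈ Γ) (hgh : PEq h g⁻¹) : PEq (r h) (r g)⁻¹ := by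
  have h1 : PEq (r 1) (r 1 * r 1) := hr 1 Γ.one_mem 1 Γ.one_mem 1 Γ.one_mem (by
    rw [mul_one]; exact IJ2_rfl 1)
  have h2 : PEq 1 (r 1) := by
    have := IJ2_mul_left (r 1)⁻¹ h1
    rwa [inv_mul_cancel, inv_mul_cancel_left] at this
  have h3 : PEq 1 (g * h) := by
    have := IJ2_mul_left g hgh
    rw [mul_inv_cancel] at this
    exact IJ2_symm this
  have h4 : PEq (r 1) (r g * r h) := hr g hg h hh 1 Γ.one_mem h3
  have h5 : PEq 1 (r g * r h) := IJ2_trans h2 h4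
  have h6 := IJ2_mul_left (r g)⁻¹ h5
  rw [mul_one, inv_mul_cancel_left] at h6
  exact IJ2_symm h6

theorem IJ2 (hBD6 : BD6_stmt) (hBD8 : BD8_stmt) (hGM1 : GM1_stmt) (hGM2 : GM2_stmt)
    (hPN3 : PN3_stmt) (hPN4 : PN4_stmt) (hPN5 : PN5_stmt) (hPN6 : PN6_stmt) (hHX1 : HX1_stmt)
    (hFA1 : FA1_stmt) (hFB1 : FB1_stmt) (hFB2 : FB2_stmt) : IJ2_stmt := by
  intro Γ hΓ S hP hne r r' hr hr' hlen htw
  obtain ⟨x1, x2, x3, x4, x5, x6, x7⟩ := hHX1 Γ hΓ S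
  obtain ⟨b1, b2, b3, b4, b5⟩ := hFB1 Γ hΓ S r hr
  obtain ⟨c1, c2, c3, c4, c5⟩ := hFB1 Γ hΓ S r' hr'
  obtain ⟨a1, a2, a3, a4, a5, a6⟩ := hFA1
  -- move (a)
  have mA : ∀ D p u u', S.Seam p u → S.Seam p u' → IJ2_Good (Γ := Γ) r r' D p u →
      IJ2_Good (Γ := Γ) r r' D p u' := by
    intro D p u u' hu hu' hg F F' hF hF'
    obtain ⟨k, hk⟩ := hFB2 Γ hΓ S hP p u u' hu hu'
    obtain ⟨F0, hF0⟩ := b1 p u hu
    obtain ⟨F0', hF0'⟩ := c1 p u hu
    have e1 := hk r hr F0 F hF0 hF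
    have e2 := hk r' hr' F0' F' hF0' hF'
    have e3 := hg F0 F0' hF0 hF0'
    rw [← hlen p (IJ2_seam_mem S hu).1] at e2
    refine IJ2_trans e2 ?_
    have e4 := IJ2_mul_right (Dm (k * (len (r (gen Γ p)) / 2))) e3
    refine IJ2_trans e4 ?_
    rw [mul_assoc]
    exact IJ2_mul_left D (IJ2_symm e1)
  -- move (b), hexagon in the right order
  have mB1 : ∀ D p u s, S.Hex p u s → (IJ2_Good (Γ := Γ) r r' D p u ↔
      IJ2_Good (Γ := Γ) r r' D u p) := by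
    intro D p u s hx
    have hsu : S.Seam p u := ⟨s, Or.inl hx⟩
    have hus : S.Seam u p := ⟨s, Or.inr hx⟩
    have l1 := hlen p (IJ2_seam_mem S hsu).1
    have l2 := hlen u (IJ2_seam_mem S hsu).2
    have l3 := hlen s hx.2.1.2.1
    constructor
    · intro hg F F' hF hF'
      obtain ⟨F0, hF0⟩ := b1 p u hsu
      obtain ⟨F0', hF0'⟩ := c1 p u hsu
      have e1 := (b4 p u s F0 hx hF0).2.1
      have e2 := (c4 p u s F0' hx hF0').2.1
      have e3 := b2 u p _ F hus ((a5 _ _ _).mpr ⟨_, e1⟩) hF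
      have e4 := c2 u p _ F' hus ((a5 _ _ _).mpr ⟨_, e2⟩) hF'
      have e5 := hg F0 F0' hF0 hF0'
      rw [← l1, ← l2, ← l3] at e4
      refine IJ2_trans e4 ?_
      have e6 := IJ2_mul_right (Em (sd (len (r (gen Γ p))) (len (r (gen Γ u)))
        (len (r (gen Γ s)))) * Rm) e5
      rw [← mul_assoc] at e6
      refine IJ2_trans e6 ?_
      have e7 := IJ2_mul_left D (IJ2_symm e3)
      simp only [mul_assoc] at e7 ⊢
      exact e7
    · intro hg F0 F0' hF0 hF0'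
      have e1 := (b4 p u s F0 hx hF0).2.1
      have e2 := (c4 p u s F0' hx hF0').2.1
      have e5 := hg _ _ ((a5 _ _ _).mpr ⟨_, e1⟩) ((a5 _ _ _).mpr ⟨_, e2⟩)
      rw [← l1, ← l2, ← l3] at e5
      apply IJ2_cancel_right (Em (sd (len (r (gen Γ p))) (len (r (gen Γ u)))
        (len (r (gen Γ s)))) * Rm)
      simp only [mul_assoc] at e5 ⊢
      exact e5
  have mB : ∀ D p u, S.Seam p u → IJ2_Good (Γ := Γ) r r' D p u →
      IJ2_Good (Γ := Γ) r r' D u p := by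
    intro D p u hsu hg
    obtain ⟨s, hx | hx⟩ := hsu
    · exact (mB1 D p u s hx).mp hg
    · exact (mB1 D u p s hx).mpr hg
  -- move (c)
  have mC : ∀ D p u v, S.Seam p u → S.Seam (sw p) v → IJ2_Good (Γ := Γ) r r' D p u →
      IJ2_Good (Γ := Γ) r r' D (sw p) v := by
    intro D p u v hu hv hg G G' hG hG'
    obtain ⟨F, hF⟩ := b1 p u hu
    obtain ⟨F', hF'⟩ := c1 p u hu
    have hpL := (IJ2_seam_mem S hu).1
    have hcl := S.closed p hpL
    have hcl' := S.closed (sw p) (IJ2_seam_mem S hv).1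
    have hinv : PEq (r (gen Γ (sw p))) (r (gen Γ p))⁻¹ :=
      IJ2_rep_inv hr.1.1 (hGM1 Γ hΓ p hcl).1 (hGM1 Γ hΓ (sw p) hcl').1
        ((hGM2 Γ hΓ).2.2 p hcl)
    have htr := hr.1.2.1 p hpL
    obtain ⟨P, hPat⟩ := (hBD8.2.2.2.1 (r (gen Γ p))).mp htr
    have hFf := a4 _ _ F P htr hF hPat
    have hPi := hBD8.2.2.2.2.2.2.1 _ P hPat
    have htri : 2 < |trc (r (gen Γ p))⁻¹| := (hBD8.2.2.2.1 _).mpr ⟨_, hPi⟩
    have hG2 : IsSeamFrame (r (gen Γ p))⁻¹ (r (gen Γ v)) G :=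
      a2 _ _ G _ _ G (hr.1.2.1 (sw p) (IJ2_seam_mem S hv).1)
        (hr.1.2.1 v (IJ2_seam_mem S hv).2) (IJ2_symm hinv) (IJ2_rfl _) (IJ2_rfl _) hG
    have hGf := a4 _ _ G (P.2, P.1) htri hG2 hPi
    have hGR := hBD6.2.2.2.2.1 G (P.2, P.1) hGf
    obtain ⟨t, ht⟩ := hBD6.2.2.1 (G * Rm) F P hGR hFf
    have e1 := htw p u v F G F' G' t hu hv hF hG hF' hG' ht
    have e2 := hg F F' hF hF'
    have e3 : PEq (G' * (Rm * Dm t)) ((D * G) * (Rm * Dm t)) := by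
      have e4 := IJ2_mul_left D ht
      have e5 := IJ2_trans (IJ2_symm e1) (IJ2_trans e2 e4)
      simp only [mul_assoc] at e5 ⊢
      exact e5
    exact IJ2_cancel_right _ e3
  -- leaves
  have lA : ∀ D p u, S.Seam p u → IJ2_Good (Γ := Γ) r r' D p u → IJ2_Leaf S r r' D p :=
    fun D p u hu hg => ⟨(IJ2_seam_mem S hu).1, fun u' hu' => mA D p u u' hu hu' hg⟩
  have lB : ∀ D p u, S.Seam p u → IJ2_Leaf S r r' D p → IJ2_Leaf S r r' D u :=
    fun D p u hu hg => lA D u p (IJ2_seam_symm S hu) (mB D p u hu (hg.2 u hu))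
  have hsome : ∀ p ∈ S.L, ∃ u, S.Seam p u := by
    intro p hp
    obtain ⟨q, s, hx⟩ := hP.hex p hp
    exact ⟨q, s, Or.inl hx⟩
  have lC : ∀ D p, IJ2_Leaf S r r' D p → IJ2_Leaf S r r' D (sw p) := by
    intro D p hg
    obtain ⟨u, hu⟩ := hsome p hg.1
    obtain ⟨v, hv⟩ := hsome (sw p) (S.swap p hg.1)
    exact lA D (sw p) v hv (mC D p u v hu hv (hg.2 u hu))
  -- hexagon chains
  have hchain : ∀ D (h h' : (Bd × Bd) × (Bd × Bd) × (Bd × Bd)), HexConn Γ h h' →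
      S.Hex h.1 h.2.1 h.2.2 → IJ2_Leaf S r r' D h.1 →
      S.Hex h'.1 h'.2.1 h'.2.2 ∧ IJ2_Leaf S r r' D h'.1 := by
    intro D h h' hc hx hg
    induction hc with
    | refl => exact ⟨hx, hg⟩
    | tail _ hm ih =>
      obtain ⟨ih1, ih2⟩ := ih
      rcases hm with hm | hm | hm
      · rw [hm]
        exact ⟨x1 _ _ _ ih1, lB D _ _ ⟨_, Or.inl ih1⟩ ih2⟩
      · rw [hm]
        exact ⟨x2 _ _ _ ih1, ih2⟩
      · rw [hm]
        exact ⟨x3 _ _ _ ih1, ih2⟩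
  have lD : ∀ D p s, S.CoPl p s → IJ2_Leaf S r r' D p → IJ2_Leaf S r r' D s := by
    intro D p s hs hg
    obtain ⟨q, t, hx⟩ := hP.hex p hg.1
    obtain ⟨u, v, hc⟩ := hP.reach p q t hx s hs
    exact (hchain D (p, q, t) (s, u, v) hc hx hg).2
  -- all leaves
  obtain ⟨p0, hp0⟩ := hne
  obtain ⟨u0, hu0⟩ := hsome p0 hp0
  obtain ⟨F0, hF0⟩ := b1 p0 u0 hu0
  obtain ⟨F0', hF0'⟩ := c1 p0 u0 hu0
  set D : SL(2, ℝ) := F0' * F0⁻¹ with hD
  have hgood0 : IJ2_Good (Γ := Γ) r r' D p0 u0 := by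
    intro F F' hF hF'
    have e1 := b2 p0 u0 F0 F hu0 hF0 hF
    have e2 := c2 p0 u0 F0' F' hu0 hF0' hF'
    have e3 := IJ2_mul_left D e1
    rw [hD, inv_mul_cancel_right] at e3
    exact IJ2_trans e2 (IJ2_symm e3)
  have hleaf0 := lA D p0 u0 hu0 hgood0
  have hall : ∀ q ∈ S.L, IJ2_Leaf S r r' D q := by
    intro q hq
    obtain ⟨n1, n2, n3, n4, n5⟩ := hPN3 Γ hΓ S p0 hp0
    obtain ⟨z0, hz0⟩ := n1
    obtain ⟨z, hz⟩ := (hPN3 Γ hΓ S q hq).1
    have hnear : ∀ w, Relation.ReflTransGen S.Step z0 w →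
        ∀ s ∈ S.L, S.Near s w → IJ2_Leaf S r r' D s := by
      intro w hw
      induction hw with
      | refl =>
        intro s hs hns
        rcases (hPN4 Γ hΓ S p0 hp0 s hs z0 hz0).mp hns with h | h
        · rw [h]; exact hleaf0
        · exact lD D p0 s h hleaf0
      | tail _ hstep ih =>
        rename_i w1 w2 _
        intro s hs hns
        obtain ⟨ho1, ho2, hstep⟩ := hstep
        rcases hstep with hsame | ⟨p, hacr⟩
        · have h1 := (hPN5 Γ S).1 _ _ hsame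
          exact ih s hs ((hPN3 Γ hΓ S s hs).2.2.2.1 _ _ hns ho1 h1)
        · have hpL := hacr.1
          obtain ⟨g1, g2⟩ := (hPN3 Γ hΓ S p hpL).2.2.2.2 _ _ ho1 ho2 hacr
          have h1 := lC D p (ih p hpL g1)
          rcases (hPN4 Γ hΓ S (p.2, p.1) (S.swap p hpL) s hs _ g2).mp hns with h | h
          · rw [h]; exact h1
          · exact lD D _ s h h1
    exact hnear z ((hPN6 Γ hΓ S).1 z0 z hz0.1 hz.1) q hq hz
  -- the conjugation
  refine ⟨D, ?_⟩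
  intro γ hγ
  have hseam : S.Seam (ga γ p0) (ga γ u0) := by
    obtain ⟨x, hx | hx⟩ := hu0
    · exact ⟨ga γ x, Or.inl (x4 γ hγ _ _ _ hx)⟩
    · exact ⟨ga γ x, Or.inr (x4 γ hγ _ _ _ hx)⟩
  have f1 := b3 γ hγ p0 u0 F0 hu0 hF0
  have f2 := c3 γ hγ p0 u0 F0' hu0 hF0'
  have f3 := (hall (ga γ p0) (S.inv γ hγ p0 hp0)).2 (ga γ u0) hseam _ _ f1 f2
  have f4 : PEq (r' γ * F0') (D * r γ * D⁻¹ * F0') := by
    have : D * r γ * D⁻¹ * F0' = D * (r γ * F0) := by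
      rw [hD]
      group
    rw [this]
    exact f3
  exact IJ2_cancel_right _ f4

end AdSBend
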