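import Pool.Agent.helper69.AD.GS2

/-! # MP_a29257_gt, module ag:PN2: oriented boundary leaves of one plaque -/

open scoped MatrixGroups LinearAlgebra.Projectivization
open Matrix UpperHalfPlane

namespace AdSBend

theorem PN2_symm (hBD : BD12_stmt) {Γ : Subgroup SL(2, ℝ)} (S : LeafSystem Γ) {p q : Bd × Bd}
    (h : S.CoPl p q) : S.CoPl q p := by
  obtain ⟨f1, f2, f3, f4, f5, f6, f7, f8, f9, f10, f11⟩ := hBD
  obtain ⟨hp, hq, hF, hr⟩ := h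
  refine ⟨hq, hp, (f1 p q).mp hF, ?_⟩
  intro r hrL hin hfac
  apply hr (r.2, r.1) (S.swap r hrL)
  · exact (f2 p r).mp ((f1 r p).mp hfac)
  · apply (f1 q (r.2, r.1)).mp
    exact (f2 q (r.2, r.1)).mpr hin

theorem PN2_inv (h2 : BD2_stmt) {Γ : Subgroup SL(2, ℝ)} (S : LeafSystem Γ) {γ : SL(2, ℝ)}
    (hγ : γ ∈ Γ) {p q : Bd × Bd} (h : S.CoPl p q) :
    S.CoPl (γ • p.1, γ • p.2) (γ • q.1, γ • q.2) := by
  obtain ⟨hp, hq, hF, hr⟩ := h
  refine ⟨S.inv γ hγ p hp, S.inv γ hγ q hq, ?_, ?_⟩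
  · exact ⟨(h2 γ _ _ _).mpr hF.1, (h2 γ _ _ _).mpr hF.2⟩
  · intro r hrL hin hfac
    have hg : γ⁻¹ ∈ Γ := Γ.inv_mem hγ
    have hr0 := S.inv γ⁻¹ hg r hrL
    have e1 : ∀ x : Bd, γ • (γ⁻¹ • x) = x := fun x => smul_inv_smul γ x
    apply hr (γ⁻¹ • r.1, γ⁻¹ • r.2) hr0
    · constructor
      · apply (h2 γ _ _ _).mp
        show Cyc (γ • γ⁻¹ • r.1) (γ • p.1) (γ • p.2)
        rw [e1]
        exact hin.1
      · apply (h2 γ _ _ _).mp
        show Cyc (γ • γ⁻¹ • r.1) (γ • p.2) (γ • γ⁻¹ • r.2)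
        rw [e1, e1]
        exact hin.2
    · constructor
      · apply (h2 γ _ _ _).mp
        show Cyc (γ • γ⁻¹ • r.1) (γ • γ⁻¹ • r.2) (γ • q.1)
        rw [e1, e1]
        exact hfac.1
      · apply (h2 γ _ _ _).mp
        show Cyc (γ • γ⁻¹ • r.1) (γ • q.1) (γ • q.2)
        rw [e1]
        exact hfac.2

theorem PN2_trans (hBD : BD12_stmt) (hPN : PN1_stmt) {Γ : Subgroup SL(2, ℝ)}
    (hΓ : IsClosedSurfaceGroup Γ) (S : LeafSystem Γ) {p q r : Bd × Bd}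
    (hpq : S.CoPl p q) (hpr : S.CoPl p r) (hne : q ≠ r) : S.CoPl q r := by
  have hqp := PN2_symm hBD S hpq
  have hrp := PN2_symm hBD S hpr
  obtain ⟨f1, f2, f3, f4, f5, f6, f7, f8, f9, f10, f11⟩ := hBD
  obtain ⟨hp, hq, hFpq, hr1⟩ := hpq
  obtain ⟨_, hr, hFpr, hr2⟩ := hpr
  obtain ⟨_, _, hFqp, hr3⟩ := hqp
  obtain ⟨_, _, hFrp, hr4⟩ := hrp
  have hswap : r ≠ (q.2, q.1) := by
    intro he
    rw [he] at hFpr
    exact f7 p q ⟨(f2 p (q.2, q.1)).mp hFpr, hFpq⟩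
  have hfac : Facing q r := by
    rcases hPN Γ hΓ S q hq r hr hne.symm hswap with h | h | h | h
    · exact absurd hFrp (hr3 r hr h)
    · exact absurd hFqp (hr4 q hq h)
    · exact h
    · exfalso
      have h1 : Inside (q.2, q.1) r := (f2 (q.2, q.1) (r.2, r.1)).mp h
      have h2 : Facing (q.2, q.1) p := f5 _ _ _ h1 hFrp
      have h3 : Facing p (q.2, q.1) := (f1 _ _).mp h2
      exact f7 p q ⟨(f2 p (q.2, q.1)).mp h3, hFpq⟩
  refine ⟨hq, hr, hfac, ?_⟩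
  intro s hs hin hfs
  have hs1 : s ≠ p := by
    intro he
    rw [he] at hin
    exact f7 q p ⟨hin, hFqp⟩
  have hs2 : s ≠ (p.2, p.1) := by
    intro he
    rw [he] at hfs
    have h1 : Facing r (p.2, p.1) := (f1 _ _).mp hfs
    exact f7 r p ⟨(f2 r (p.2, p.1)).mp h1, hFrp⟩
  have hs3 : p ≠ s := hs1.symm
  have hs4 : p ≠ (s.2, s.1) := by
    intro he
    apply hs2
    rw [he]
  rcases hPN Γ hΓ S s hs p hp hs3 hs4 with h | h | h | h
  · exact f7 q p ⟨f4 _ _ _ hin h, hFqp⟩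
  · exact hr2 s hs h hfs
  · exact hr3 s hs hin h
  · have h1 : Inside (s.2, s.1) p := (f2 (s.2, s.1) (p.2, p.1)).mp h
    have h2 : Inside r (s.2, s.1) := (f2 r s).mp ((f1 s r).mp hfs)
    exact f7 r p ⟨f4 _ _ _ h2 h1, hFrp⟩

theorem PN2 (h2 : BD2_stmt) (hBD : BD12_stmt) (hPN : PN1_stmt) : PN2_stmt := by
  intro Γ hΓ S
  exact ⟨fun p q h => PN2_symm hBD S h, fun γ hγ p q h => PN2_inv h2 S hγ h,
    fun p q r h1 h3 hne => PN2_trans hBD hPN hΓ S h1 h3 hne⟩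

end AdSBend
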