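import Pool.Agent.helper69.AD.GS3

/-! # MP_a29257_gt, module ag:CH2: orientation of a linked leaf -/

open scoped MatrixGroups LinearAlgebra.Projectivization
open Matrix UpperHalfPlane

namespace AdSBend

theorem CH2_aux (h : BD4_stmt) (x y a b : Bd) :
    (Cyc x a y ∧ Cyc x y b) ↔ (Cyc a y b ∧ Cyc b x a) := by
  obtain ⟨f1, f2, f3, f4, f5, f6⟩ := h
  constructor
  · rintro ⟨h1, h2⟩
    obtain ⟨h3, h4⟩ := f5 x a y b h1 h2
    exact ⟨h4, f2 _ _ _ (f2 _ _ _ h3)⟩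
  · rintro ⟨h1, h2⟩
    have h3 : Cyc a b x := f2 _ _ _ (f2 _ _ _ h2)
    obtain ⟨h4, h5⟩ := f5 a y b x h1 h3
    exact ⟨f2 _ _ _ (f2 _ _ _ h4), f2 _ _ _ (f2 _ _ _ h5)⟩

theorem CH2 (h : BD4_stmt) : CH2_stmt := by
  intro l p
  unfold Linked Behind
  rw [CH2_aux h l.1 l.2 p.1 p.2, CH2_aux h l.1 l.2 p.2 p.1]

end AdSBend
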